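import Pool.Agent.Helper535.V

/-!
# Weak sigma-metacompactness off the diagonal (project GK, MP_294ed4_gt)

Basic definitions. A *system* on a compact Hausdorff space `X` is a family of open sets
`O v ⊆ X × X` with continuous functions `g v` equal to `0` on the first and to `1` on the second
coordinates of the points of `O v`, covering the complement of the diagonal, whose index set `V`
carries a second countable topology for which every point outside the diagonal is locally in
finitely many `O v`.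
-/

open Set Topology Cardinal Pool.Agent.Helper535

namespace Pool.Agent.H180.GK

universe u v w

/-- a weakly sigma-point-finite family of subsets -/
def WSPF {Y : Type u} (A : Set (Set Y)) : Prop :=
  ∃ B : ℕ → Set (Set Y), A = ⋃ n, B n ∧
    ∀ x : Y, A = ⋃ n ∈ {n | {s | s ∈ B n ∧ x ∈ s}.Finite}, B n

/-- every open cover has a weakly sigma-point-finite open refinement -/
def WSMetacompact (Y : Type u) [TopologicalSpace Y] : Prop :=
  ∀ U : Set (Set Y), (∀ s ∈ U, IsOpen s) → ⋃₀ U = Set.univ →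
    ∃ A : Set (Set Y), (∀ s ∈ A, IsOpen s) ∧ ⋃₀ A = Set.univ ∧ (∀ s ∈ A, ∃ t ∈ U, s ⊆ t) ∧ WSPF A

/-- convenient form of weak sigma-point-finiteness -/
theorem WSPF_iff {Y : Type u} {A : Set (Set Y)} : WSPF A ↔
    ∃ B : ℕ → Set (Set Y), (∀ n, B n ⊆ A) ∧
      ∀ x : Y, ∀ s ∈ A, ∃ n, s ∈ B n ∧ {t | t ∈ B n ∧ x ∈ t}.Finite := by
  constructor
  · rintro ⟨B, hA, hB⟩
    refine ⟨B, fun n => hA ▸ subset_iUnion B n, ?_⟩
    intro x s hs
    rw [hB x] at hs
    simp only [mem_iUnion] at hs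
    obtain ⟨n, hn, hsn⟩ := hs
    exact ⟨n, hsn, hn⟩
  · rintro ⟨B, hA, hB⟩
    rcases isEmpty_or_nonempty Y with hY | ⟨⟨x0⟩⟩
    · rcases A.eq_empty_or_nonempty with rfl | ⟨s, hs⟩
      · refine ⟨fun _ => ∅, by simp, fun x => by simp⟩
      · have : A = {∅} := by
          ext t
          have ht : ∀ t : Set Y, t = ∅ := fun t => Set.eq_empty_of_isEmpty t
          constructor
          · intro _; exact ht t
          · intro _; rw [ht t, ← ht s]; exact hs
        refine ⟨fun _ => {∅}, by rw [this]; simp, fun x => (hY.false x).elim⟩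
    · refine ⟨B, ?_, ?_⟩
      · apply Subset.antisymm
        · intro s hs
          obtain ⟨n, hn, -⟩ := hB x0 s hs
          exact mem_iUnion.2 ⟨n, hn⟩
        · exact iUnion_subset hA
      · intro x
        apply Subset.antisymm
        · intro s hs
          obtain ⟨n, hn, hf⟩ := hB x s hs
          simp only [mem_iUnion]
          exact ⟨n, hf, hn⟩
        · exact iUnion₂_subset fun n _ => hA n

/-- systems -/
structure Sys (X : Type u) [TopologicalSpace X] (V : Type u) [TopologicalSpace V]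
    (O : V → Set (X × X)) (g : V → C(X, ℝ)) : Prop where
  isOpen : ∀ v, IsOpen (O v)
  zero : ∀ v p, p ∈ O v → g v p.1 = 0
  one : ∀ v p, p ∈ O v → g v p.2 = 1
  cover : ∀ x y, x ≠ y → ∃ v, (x, y) ∈ O v
  fin : ∀ x y, x ≠ y → ∀ v, ∃ U ∈ 𝓝 v, {w | w ∈ U ∧ (x, y) ∈ O w}.Finite

/-- coordinate functions on the square -/
def sq {X : Type u} [TopologicalSpace X] {V : Type u} (g : V → C(X, ℝ)) (N : Set V) :
    Set C(X × X, ℝ) :=
  {f | ∃ v ∈ N, f = (g v).comp ⟨Prod.fst, continuous_fst⟩ ∨ f = (g v).comp ⟨Prod.snd, continuous_snd⟩}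

/-- points and indices in a set -/
def Xp {X V : Type u} (S : Set (X ⊕ V)) : Set X := {x | Sum.inl x ∈ S}
def Vp {X V : Type u} (S : Set (X ⊕ V)) : Set V := {x | Sum.inr x ∈ S}

/-- models -/
structure Mo {X : Type u} [TopologicalSpace X] {V : Type u} (O : V → Set (X × X))
    (g : V → C(X, ℝ)) (S : Set (X ⊕ V)) : Prop where
  dn : Dn Set.univ (Xp S) (g '' Vp S)
  clo : ∀ p ∈ Xp S, ∀ q ∈ Xp S, ∀ v, (p, q) ∈ O v → v ∈ Vp S
  dn2 : ∀ v ∈ Vp S, Dn ((O v)ᶜ) ((O v)ᶜ ∩ (Xp S ×ˢ Xp S)) (sq g (Vp S))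

end Pool.Agent.H180.GK
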