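import Pool.Agent.H180.GK.Glue

/-!
# Assembly
-/

open Set Topology Cardinal Pool.Agent.Helper535

namespace Pool.Agent.H180.GK

universe u v w

theorem final (hU : S_Union.{u}) (hC : S_Close.{u}) (hI : S_Init.{u}) (hP : S_Prod.{u, u})
    (hH : S_Hered.{u, u}) (X : Type u) [TopologicalSpace X] [CompactSpace X] [T2Space X]
    (h : WSMetacompact {p : X × X // p.1 ≠ p.2}) :
    (∀ S : Set (X × X), WSMetacompact S) ∧
    ∃ 𝓕 : Set (Set {g : X → ℝ // Continuous g}), 𝓕.Countable ∧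
      ∀ z : {g : X → ℝ // Continuous g}, ∃ K : Set {g : X → ℝ // Continuous g},
        IsCompact K ∧ z ∈ K ∧
        ∀ U : Set {g : X → ℝ // Continuous g}, IsOpen U → K ⊆ U → ∃ F ∈ 𝓕, K ⊆ F ∧ F ⊆ U := by
  obtain ⟨V, _, _, O, g, hs⟩ := hI X h
  have h1 : GS (ℕ → Cd V) X := Sys.gs hU hC hs
  refine ⟨fun S => ?_, h1.network⟩
  exact hH (X × X) ((ℕ → Cd V) ⊕ (ℕ → Cd V)) (hP X (ℕ → Cd V) h1) S

end Pool.Agent.H180.GK
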