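import Pool.Agent.H180.GK.Key

/-!
# Gluing along a chain of retractions and the recursion
-/

open Set Topology Cardinal Pool.Agent.Helper535

namespace Pool.Agent.H180.GK

universe u v w

/-- the space of codes -/
abbrev Cd (V : Type u) : Type u := ℕ → Σ n : ℕ, (Fin n → V)

theorem sigma_nhds {V : Type u} [TopologicalSpace V] (w : Σ n : ℕ, (Fin n → V)) :
    ∀ W ∈ 𝓝 w.2, Sigma.mk w.1 '' W ∈ 𝓝 w := by
  obtain ⟨n, l⟩ := w
  intro W hW
  rw [Sigma.nhds_mk]
  exact Filter.image_mem_map hW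

theorem glue {X : Type u} [TopologicalSpace X] [CompactSpace X] [T2Space X] {V : Type u}
    [TopologicalSpace V] {O : V → Set (X × X)} {g : V → C(X, ℝ)} (h : Sys X V O g)
    {ι : Type u} [LinearOrder ι] [WellFoundedLT ι] [Nonempty ι]
    (S : ι → Set (X ⊕ V)) (hS : Monotone S) (hM : ∀ i, Mo O g (S i)) (r : ι → C(X, X))
    (hlim : ∀ i, Order.IsSuccLimit i → ∀ t ∈ S i, ∃ j < i, t ∈ S j)
    (hr1 : ∀ i x, r i x ∈ closure (Xp (S i)))
    (hr2 : ∀ i x, ∀ f ∈ g '' Vp (S i), f (r i x) = f x)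
    (hr3 : ∀ i, ∀ x ∈ closure (Xp (S i)), r i x = x)
    (K0 : ∀ k i x, k ≤ i → r k (r i x) = r k x)
    (hlimr : ∀ i, Order.IsSuccLimit i → ∀ x y, (∀ j < i, r j x = r j y) → r i x = r i y)
    (hsep : ∀ x y, (∀ i, r i x = r i y) → x = y)
    (hst : ∀ i, GS (ℕ → Cd V) (closure (Xp (S i)))) :
    GS (ℕ → Cd V) X := by
  classical
  choose Q q0 c G hG using hst
  let rc : ∀ i, C(X, closure (Xp (S i))) := fun i => ⟨fun x => ⟨r i x, hr1 i x⟩,
    (r i).continuous.subtype_mk _⟩
  have hrc : ∀ i x y, rc i x = rc i y → r i x = r i y := by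
    intro i x y hxy
    exact congrArg Subtype.val hxy
  have hrc' : ∀ i x y, r i x = r i y → rc i x = rc i y := by
    intro i x y hxy
    exact Subtype.ext hxy
  obtain ⟨i0, -, hi0⟩ := WellFounded.has_min (wellFounded_lt (α := ι)) Set.univ univ_nonempty
  let J : Type u := {p : ι × ι // p.1 ⋖ p.2}
  let I2 : Type u := Σ p : J, Q p.1.2
  let ff : I2 → C(X, ℝ) := fun q => (1/2 : ℝ) • ((q0 q.1.1.2 q.2).comp (rc q.1.1.2) -
    ((q0 q.1.1.2 q.2).comp (rc q.1.1.2)).comp (r q.1.1.1))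
  have hff : ∀ q x, ff q x = 1/2 * (q0 q.1.1.2 q.2 (rc q.1.1.2 x) -
      q0 q.1.1.2 q.2 (rc q.1.1.2 (r q.1.1.1 x))) := fun q x => rfl
  -- the codes
  have hcode : ∀ (q : I2) (m : ℕ), ∃ w : Σ n : ℕ, (Fin n → V), ∀ x, 1 / ((m : ℝ) + 1) ≤ |ff q x| →
      Cov S r O x q.1 w.2 := by
    intro q m
    let K : Set X := closure (Xp (S q.1.1.2)) ∩ {x | 1 / ((m : ℝ) + 1) ≤ |ff q x|}
    have hK : IsCompact K := by
      apply IsClosed.isCompact
      apply isClosed_closure.inter
      exact isClosed_le continuous_const (ff q).continuous.abs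
    have hP : IsCompact (K ×ˢ closure (Xp (S q.1.1.1))) :=
      hK.prod isClosed_closure.isCompact
    have hcov : K ×ˢ closure (Xp (S q.1.1.1)) ⊆ ⋃ v : Vp (S q.1.1.2), O v.1 := by
      rintro ⟨x, y⟩ ⟨⟨hx1, hx2⟩, hy⟩
      have hne : x ≠ y := by
        rintro rfl
        have e1 : r q.1.1.1 x = x := hr3 _ x hy
        have hx3 : 1 / ((m : ℝ) + 1) ≤ |ff q x| := hx2
        rw [hff, e1, sub_self, mul_zero, abs_zero] at hx3
        have : (0 : ℝ) < 1 / ((m : ℝ) + 1) := by positivity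
        linarith
      obtain ⟨v, hv⟩ := h.cover x y hne
      have hvS : v ∈ Vp (S q.1.1.2) :=
        (hM q.1.1.2).vmem h hx1 (xp_mono (hS q.1.2.le) hy) hv
      exact mem_iUnion.2 ⟨⟨v, hvS⟩, hv⟩
    obtain ⟨t, ht⟩ := hP.elim_finite_subcover (fun v : Vp (S q.1.1.2) => O v.1)
      (fun v => h.isOpen v.1) hcov
    refine ⟨⟨t.card, fun k => (t.equivFin.symm k).1.1⟩, ?_⟩
    intro x hx
    refine ⟨fun k => (t.equivFin.symm k).1.2, ?_⟩
    intro y hy
    have hx' : r q.1.1.2 x ∈ K := by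
      refine ⟨hr1 _ x, ?_⟩
      show 1 / ((m : ℝ) + 1) ≤ |ff q (r q.1.1.2 x)|
      have e1 : rc q.1.1.2 (r q.1.1.2 x) = rc q.1.1.2 x := hrc' _ _ _ (K0 _ _ _ le_rfl)
      have e2 : r q.1.1.1 (r q.1.1.2 x) = r q.1.1.1 x := K0 _ _ _ q.1.2.le
      rw [hff, e1, e2, ← hff]
      exact hx
    have h3 := ht (Set.mk_mem_prod hx' hy)
    simp only [mem_iUnion] at h3
    obtain ⟨v, hv, hvO⟩ := h3
    refine ⟨t.equivFin ⟨v, hv⟩, ?_⟩
    show (r q.1.1.2 x, y) ∈ O (t.equivFin.symm (t.equivFin ⟨v, hv⟩)).1.1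
    rw [Equiv.symm_apply_apply]
    exact hvO
  choose cd hcd using hcode
  -- finiteness of the set of relevant jumps
  have hjump : ∀ x (z : Cd V) ε, 0 < ε → ∃ W ∈ 𝓝 z, {p : J | ∃ s : Q p.1.2, cd ⟨p, s⟩ ∈ W ∧
      ε ≤ |ff ⟨p, s⟩ x|}.Finite := by
    intro x z ε hε
    obtain ⟨m, hm⟩ := exists_nat_one_div_lt hε
    obtain ⟨W, hW, hf⟩ := jump S r h hS hM hlim hr1 hr2 hr3 K0 hsep x (z m).2
    refine ⟨{z' | z' m ∈ Sigma.mk (z m).1 '' W}, ?_, hf.subset ?_⟩
    · apply (continuous_apply m).continuousAt.preimage_mem_nhds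
      exact sigma_nhds (z m) W hW
    · rintro p ⟨s, hs1, hs2⟩
      obtain ⟨l, hl, hle⟩ := hs1
      have h1 := hcd ⟨p, s⟩ m x (hm.le.trans hs2)
      refine ⟨l, hl, ?_⟩
      rw [← hle] at h1
      exact h1
  refine ⟨Q i0 ⊕ I2, Sum.elim (fun s => (q0 i0 s).comp (rc i0)) ff,
    Sum.elim (c i0) (fun q => scons (cd q) (c q.1.1.2 q.2)), ⟨?_, ?_⟩, ?_⟩
  · rintro (s | q) x
    · exact (G i0).bdd s _
    · show |ff q x| ≤ 1
      rw [hff]
      have h1 := abs_le.1 ((G q.1.1.2).bdd q.2 (rc q.1.1.2 x))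
      have h2 := abs_le.1 ((G q.1.1.2).bdd q.2 (rc q.1.1.2 (r q.1.1.1 x)))
      rw [abs_le]
      constructor <;> linarith [h1.1, h1.2, h2.1, h2.2]
  · intro x z ε hε
    obtain ⟨O0, hO0, hf0⟩ := (G i0).fin (rc i0 x) z ε hε
    obtain ⟨O1, hO1, hf1⟩ := hjump x (z 0) ε hε
    let P1 : Set J := {p : J | ∃ s : Q p.1.2, cd ⟨p, s⟩ ∈ O1 ∧ ε ≤ |ff ⟨p, s⟩ x|}
    choose U hU hf using fun p : J => (G p.1.2).fin (rc p.1.2 x) (fun n => z (n+1)) ε hε
    choose U' hU' hf' using fun p : J => (G p.1.2).fin (rc p.1.2 (r p.1.1 x))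
      (fun n => z (n+1)) ε hε
    have hO2 : (⋂ p ∈ P1, U p ∩ U' p) ∈ 𝓝 (fun n => z (n+1)) := by
      rw [Filter.biInter_mem hf1]
      exact fun p _ => Filter.inter_mem (hU p) (hU' p)
    refine ⟨O0 ∩ {z' : ℕ → Cd V | z' 0 ∈ O1 ∧ (fun n => z' (n+1)) ∈ ⋂ p ∈ P1, U p ∩ U' p},
      Filter.inter_mem hO0 (scons_nhds z hO1 hO2), ?_⟩
    have hfin2 : (⋃ p ∈ P1, (fun s : Q p.1.2 => (⟨p, s⟩ : I2)) ''
        ({s | c p.1.2 s ∈ U p ∧ ε ≤ |q0 p.1.2 s (rc p.1.2 x)|} ∪
        {s | c p.1.2 s ∈ U' p ∧ ε ≤ |q0 p.1.2 s (rc p.1.2 (r p.1.1 x))|})).Finite :=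
      hf1.biUnion fun p _ => ((hf p).union (hf' p)).image _
    apply ((hf0.image Sum.inl).union (hfin2.image Sum.inr)).subset
    rintro (s | q) ⟨⟨hs1, hs2, hs3⟩, hs4⟩
    · exact Or.inl ⟨s, ⟨hs1, hs4⟩, rfl⟩
    · refine Or.inr ⟨q, ?_, rfl⟩
      have hs5 : ε ≤ |ff q x| := hs4
      have hq : q.1 ∈ P1 := ⟨q.2, hs2, hs5⟩
      have hq2 : c q.1.1.2 q.2 ∈ U q.1 ∩ U' q.1 := by
        have : (c q.1.1.2 q.2) ∈ ⋂ p ∈ P1, U p ∩ U' p := hs3
        simp only [mem_iInter] at this
        exact this q.1 hq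
      simp only [mem_iUnion]
      refine ⟨q.1, hq, q.2, ?_, rfl⟩
      rw [hff, abs_mul] at hs5
      have h6 := abs_sub (q0 q.1.1.2 q.2 (rc q.1.1.2 x)) (q0 q.1.1.2 q.2 (rc q.1.1.2 (r q.1.1.1 x)))
      have h7 : |(1/2 : ℝ)| = 1/2 := abs_of_pos (by norm_num)
      rw [h7] at hs5
      by_cases h8 : ε ≤ |q0 q.1.1.2 q.2 (rc q.1.1.2 x)|
      · exact Or.inl ⟨hq2.1, h8⟩
      · right
        refine ⟨hq2.2, ?_⟩
        push Not at h8
        linarith
  · intro x y hxy
    by_contra hne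
    have hex : ∃ i, r i x ≠ r i y := by
      by_contra hall'
      push Not at hall'
      exact hne (hsep x y hall')
    obtain ⟨i, hi, hmin⟩ := WellFounded.has_min (wellFounded_lt (α := ι)) {i | r i x ≠ r i y} hex
    rcases order_tri i with hm | ⟨j, hj⟩ | hl
    · have : i = i0 := by
        apply le_antisymm
        · by_contra hlt
          push Not at hlt
          exact absurd (hm hlt.le) (not_le.2 hlt)
        · by_contra hlt
          push Not at hlt
          exact hi0 i (mem_univ i) hlt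
      subst this
      apply hi
      apply hrc
      apply hG
      intro s
      exact hxy (Sum.inl s)
    · have hjeq : r j x = r j y := by
        by_contra hne'
        exact hmin j hne' hj.lt
      apply hi
      apply hrc
      apply hG
      intro q
      have h3 : ff ⟨⟨(j, i), hj⟩, q⟩ x = ff ⟨⟨(j, i), hj⟩, q⟩ y := hxy (Sum.inr _)
      rw [hff, hff] at h3
      simp only [hjeq] at h3
      linarith
    · apply hi
      apply hlimr i hl
      intro j hji
      by_contra hne'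
      exact hmin j hne' hji

/-- restriction of a system to a closed subspace -/
theorem Sys.restrict {X : Type u} [TopologicalSpace X] {V : Type u} [TopologicalSpace V]
    {O : V → Set (X × X)} {g : V → C(X, ℝ)} (h : Sys X V O g) (Z : Set X) :
    Sys Z V (fun v => {p | (p.1.1, p.2.1) ∈ O v}) (fun v => (g v).restrict Z) := by
  refine ⟨?_, ?_, ?_, ?_, ?_⟩
  · intro v
    exact (h.isOpen v).preimage (by fun_prop : Continuous fun p : Z × Z => (p.1.1, p.2.1))
  · intro v p hp; exact h.zero v _ hp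
  · intro v p hp; exact h.one v _ hp
  · intro x y hxy
    exact h.cover x.1 y.1 fun h' => hxy (Subtype.ext h')
  · intro x y hxy v
    exact h.fin x.1 y.1 (fun h' => hxy (Subtype.ext h')) v

theorem gs_aux (hU : S_Union.{u}) (hC : S_Close.{u}) {V : Type u} [TopologicalSpace V]
    [SecondCountableTopology V]
    (kap : Cardinal.{u}) : ∀ (X : Type u) [TopologicalSpace X] [CompactSpace X] [T2Space X]
      (O : V → Set (X × X)) (g : V → C(X, ℝ)), Sys X V O g → ∀ D : Set X, Dense D → #D = kap →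
      GS (ℕ → Cd V) X := by
  classical
  induction kap using WellFoundedLT.induction with
  | ind kap ih =>
    intro X _ _ _ O g H D hD hDk
    rcases le_or_gt kap ℵ₀ with hk | hk
    · obtain ⟨S, hS1, hS2, hS3⟩ := hC X V O g H (Sum.inl '' D)
      have hSc : #S ≤ ℵ₀ := hS3.trans (max_le (Cardinal.mk_image_le.trans (hDk.le.trans hk)) le_rfl)
      have hB : closure (Xp S) = Set.univ := by
        apply Dense.closure_eq
        apply hD.mono
        intro x hx
        exact hS1 ⟨x, hx, rfl⟩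
      have h1 := hS2.sep H
      rw [hB] at h1
      have hV : (Vp S).Countable := by
        apply Cardinal.le_aleph0_iff_set_countable.1
        refine le_trans ?_ hSc
        refine Cardinal.mk_le_of_injective (f := fun x : Vp S => (⟨Sum.inr x.1, x.2⟩ : S)) ?_
        intro x y h
        have := congrArg (fun z : S => z.1) h
        exact Subtype.ext (Sum.inr_injective this)
      exact GS_of_countable (fun _ _ => ⟨0, Fin.elim0⟩) (hV.image g) h1
    · obtain ⟨ι, _, _, hιne, S, hSmono, hP, hScard, hSlim, hSD⟩ := chain_exists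
        (T := X ⊕ V) (kap := kap) ℵ₀ le_rfl hk (Mo O g)
        (fun 𝒮 h1 h2 h3 => hU X V O g 𝒮 h1 h2 h3)
        (fun N _ => hC X V O g H N) (Sum.inl '' D) (Cardinal.mk_image_le.trans hDk.le)
      choose r hr1 hr2 hr3 using fun i => ((hP i).good H).retraction
      have hSep : ∀ i, SepOn (closure (Xp (S i))) (g '' Vp (S i)) := fun i => (hP i).sep H
      have hMm : ∀ i j, i ≤ j → g '' Vp (S i) ⊆ g '' Vp (S j) := fun i j hij =>
        image_mono fun x hx => hSmono hij hx
      have hdense : Dense (⋃ i, Xp (S i)) := by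
        apply hD.mono
        intro x hx
        obtain ⟨i, hi⟩ := mem_iUnion.1 (hSD ⟨x, hx, rfl⟩)
        exact mem_iUnion.2 ⟨i, hi⟩
      apply glue H S hSmono hP r hSlim hr1 hr2 hr3
      · intro k i x hki
        apply hSep k _ (hr1 k _) _ (hr1 k _)
        intro f hf
        rw [hr2 k _ f hf, hr2 k _ f hf, hr2 i _ f (hMm k i hki hf)]
      · intro i hi x y hxy
        apply hSep i _ (hr1 i _) _ (hr1 i _)
        rintro _ ⟨v, hv, rfl⟩
        obtain ⟨j, hj, hfj⟩ := hSlim i hi _ hv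
        rw [hr2 i _ _ ⟨v, hv, rfl⟩, hr2 i _ _ ⟨v, hv, rfl⟩, ← hr2 j x _ ⟨v, hfj, rfl⟩,
          ← hr2 j y _ ⟨v, hfj, rfl⟩, hxy j hj]
      · intro x y hxy
        have h1 : Mo O g (⋃₀ range S) := by
          apply hU X V O g _ (range_nonempty S)
          · rintro _ ⟨i, rfl⟩ _ ⟨j, rfl⟩ _
            rcases le_total i j with h | h
            · exact Or.inl (hSmono h)
            · exact Or.inr (hSmono h)
          · rintro _ ⟨i, rfl⟩; exact hP i
        have h2 := h1.sep H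
        have e1 : Xp (⋃₀ range S) = ⋃ i, Xp (S i) := by
          ext x; simp [Xp]
        rw [e1, hdense.closure_eq] at h2
        apply h2 x (mem_univ x) y (mem_univ y)
        rintro _ ⟨v, ⟨_, ⟨i, rfl⟩, hf⟩, rfl⟩
        rw [← hr2 i x _ ⟨v, hf, rfl⟩, ← hr2 i y _ ⟨v, hf, rfl⟩, hxy i]
      · intro i
        have : CompactSpace (closure (Xp (S i))) :=
          isCompact_iff_compactSpace.1 isClosed_closure.isCompact
        let DY : Set (closure (Xp (S i))) := {y | y.1 ∈ Xp (S i)}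
        have hDY : Dense DY := by
          intro y
          rw [closure_subtype]
          have : ((↑) : closure (Xp (S i)) → X) '' DY = Xp (S i) := by
            ext x
            constructor
            · rintro ⟨y, hy, rfl⟩; exact hy
            · intro hx; exact ⟨⟨x, subset_closure hx⟩, hx, rfl⟩
          rw [this]; exact y.2
        have hc : #DY ≤ #(S i) := by
          refine Cardinal.mk_le_of_injective (f := fun y : DY => (⟨Sum.inl y.1.1, y.2⟩ : S i)) ?_
          intro y z h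
          have h' : (Sum.inl y.1.1 : X ⊕ V) = Sum.inl z.1.1 := congrArg (fun t : S i => t.1) h
          exact Subtype.ext (Subtype.ext (Sum.inl_injective h'))
        exact ih #DY (hc.trans_lt (hScard i)) (closure (Xp (S i))) _ _
          (H.restrict (closure (Xp (S i)))) DY hDY rfl

/-- a compact space with a system has a separating family -/
theorem Sys.gs (hU : S_Union.{u}) (hC : S_Close.{u}) {V : Type u} [TopologicalSpace V]
    [SecondCountableTopology V] {X : Type u} [TopologicalSpace X] [CompactSpace X] [T2Space X]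
    {O : V → Set (X × X)} {g : V → C(X, ℝ)} (h : Sys X V O g) : GS (ℕ → Cd V) X :=
  gs_aux hU hC _ X O g h Set.univ dense_univ rfl

end Pool.Agent.H180.GK
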