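import Pool.Agent.H180.GK.Stm

/-!
# Retractions and the jump lemma
-/

open Set Topology Cardinal Pool.Agent.Helper535

namespace Pool.Agent.H180.GK

universe u v w

variable {X : Type u} [TopologicalSpace X] {V : Type u}
  {O : V → Set (X × X)} {g : V → C(X, ℝ)}

theorem Sys.closure_ne [TopologicalSpace V] (h : Sys X V O g) (x : X) (v : V) :
    (x, x) ∉ closure (O v) := by
  intro hx
  have h0 : closure (O v) ⊆ {p | g v p.1 = 0} := by
    apply closure_minimal (fun p hp => h.zero v p hp)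
    exact isClosed_eq ((g v).continuous.comp continuous_fst) continuous_const
  have h1 : closure (O v) ⊆ {p | g v p.2 = 1} := by
    apply closure_minimal (fun p hp => h.one v p hp)
    exact isClosed_eq ((g v).continuous.comp continuous_snd) continuous_const
  have a0 : g v x = 0 := h0 hx
  have a1 : g v x = 1 := h1 hx
  rw [a0] at a1
  norm_num at a1

theorem Mo.vmem [TopologicalSpace V] (h : Sys X V O g) {S : Set (X ⊕ V)} (hS : Mo O g S) {x y : X}
    (hx : x ∈ closure (Xp S)) (hy : y ∈ closure (Xp S)) {v : V} (hv : (x, y) ∈ O v) : v ∈ Vp S := by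
  have hc : (x, y) ∈ closure (Xp S ×ˢ Xp S) := by rw [closure_prod_eq]; exact ⟨hx, hy⟩
  obtain ⟨p, hp1, hp2⟩ := mem_closure_iff.1 hc (O v) (h.isOpen v) hv
  exact hS.clo p.1 hp2.1 p.2 hp2.2 v hp1

theorem Mo.sep [TopologicalSpace V] (h : Sys X V O g) {S : Set (X ⊕ V)} (hS : Mo O g S) :
    SepOn (closure (Xp S)) (g '' Vp S) := by
  intro x hx y hy hxy
  by_contra hne
  obtain ⟨v, hv⟩ := h.cover x y hne
  have hvS : v ∈ Vp S := hS.vmem h hx hy hv
  have h2 := hxy (g v) ⟨v, hvS, rfl⟩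
  have e0 : g v x = 0 := h.zero v _ hv
  have e1 : g v y = 1 := h.one v _ hv
  rw [e0, e1] at h2
  norm_num at h2

theorem Mo.good [TopologicalSpace V] (h : Sys X V O g) {S : Set (X ⊕ V)} (hS : Mo O g S) :
    Good (Xp S) (g '' Vp S) := ⟨hS.dn, hS.sep h⟩

theorem Mo.det [TopologicalSpace V] (h : Sys X V O g) {S : Set (X ⊕ V)} (hS : Mo O g S)
    {r : X → X} (hr1 : ∀ x, r x ∈ closure (Xp S)) (hr2 : ∀ x, ∀ f ∈ g '' Vp S, f (r x) = f x)
    {v : V} (hv : v ∈ Vp S) {x y : X} (hxy : (r x, r y) ∈ O v) : (x, y) ∈ O v := by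
  by_contra hcon
  obtain ⟨q, hq, hf⟩ := hS.dn2 v hv (x, y) hcon
  have hcl : IsClosed ((O v)ᶜ) := (h.isOpen v).isClosed_compl
  have hq1 : q ∈ (O v)ᶜ := closure_minimal inter_subset_left hcl hq
  have hq2 : q ∈ closure (Xp S ×ˢ Xp S) := closure_mono inter_subset_right hq
  rw [closure_prod_eq] at hq2
  have e1 : q.1 = r x := by
    apply hS.sep h _ hq2.1 _ (hr1 x)
    rintro _ ⟨w, hw, rfl⟩
    rw [hr2 x _ ⟨w, hw, rfl⟩]
    exact hf _ ⟨w, hw, Or.inl rfl⟩
  have e2 : q.2 = r y := by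
    apply hS.sep h _ hq2.2 _ (hr1 y)
    rintro _ ⟨w, hw, rfl⟩
    rw [hr2 y _ ⟨w, hw, rfl⟩]
    exact hf _ ⟨w, hw, Or.inr rfl⟩
  apply hq1
  rw [← Prod.mk.eta (p := q), e1, e2]
  exact hxy

theorem xp_mono {S S' : Set (X ⊕ V)} (h : S ⊆ S') : closure (Xp S) ⊆ closure (Xp S') :=
  closure_mono fun _ ha => h ha

section Chain

variable [TopologicalSpace V] {ι : Type w} [LinearOrder ι] (S : ι → Set (X ⊕ V)) (r : ι → C(X, X))

/-- the jump `p` is covered at `x` by the tuple `l` -/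
def Cov (O : V → Set (X × X)) (x : X) (p : {p : ι × ι // p.1 ⋖ p.2}) {n : ℕ} (l : Fin n → V) : Prop :=
  (∀ k, l k ∈ Vp (S p.1.2)) ∧ ∀ y ∈ closure (Xp (S p.1.1)), ∃ k, (r p.1.2 x, y) ∈ O (l k)

omit [TopologicalSpace V] in
theorem conv [CompactSpace X] (hS : Monotone S)
    (hr1 : ∀ i x, r i x ∈ closure (Xp (S i)))
    (hr2 : ∀ i x, ∀ f ∈ g '' Vp (S i), f (r i x) = f x)
    (I : Set ι) (hI : I.Nonempty) (K : Set X) (hK : IsClosed K)
    (hKI : ∀ j ∈ I, closure (Xp (S j)) ⊆ K) (x x' : X)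
    (hx : ∀ y ∈ K, (∀ j ∈ I, ∀ v ∈ Vp (S j), g v y = g v x) → y = x')
    (G : Set X) (hG : IsOpen G) (hxG : x' ∈ G) : ∃ i0 ∈ I, ∀ j ∈ I, i0 ≤ j → r j x ∈ G := by
  have hne : Nonempty I := hI.to_subtype
  obtain ⟨⟨i0, hi0⟩, h0⟩ := IsCompact.elim_directed_family_closed
    (s := K ∩ Gᶜ) ((hK.inter hG.isClosed_compl).isCompact)
    (fun j : I => {y | ∀ v ∈ Vp (S j.1), g v y = g v x}) (by
      intro j
      have : {y | ∀ v ∈ Vp (S j.1), g v y = g v x} = ⋂ v ∈ Vp (S j.1), {y | g v y = g v x} := by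
        ext y; simp
      rw [this]
      exact isClosed_biInter fun v _ => isClosed_eq (g v).continuous continuous_const) (by
      apply Set.eq_empty_of_forall_notMem
      rintro y ⟨⟨hy1, hy2⟩, hy3⟩
      rw [mem_iInter] at hy3
      exact hy2 ((hx y hy1 fun j hj v hv => hy3 ⟨j, hj⟩ v hv) ▸ hxG)) (by
      intro a b
      rcases le_total a b with hab | hab
      · refine ⟨b, fun y hy v hv => hy v ?_, subset_rfl⟩
        exact hS (show a.1 ≤ b.1 from hab) hv
      · refine ⟨a, subset_rfl, fun y hy v hv => hy v ?_⟩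
        exact hS (show b.1 ≤ a.1 from hab) hv)
  refine ⟨i0, hi0, fun j hj hij => ?_⟩
  by_contra hcon
  have : r j x ∈ (K ∩ Gᶜ) ∩ {y | ∀ v ∈ Vp (S i0), g v y = g v x} := by
    refine ⟨⟨hKI j hj (hr1 j x), hcon⟩, fun v hv => ?_⟩
    exact hr2 j x (g v) ⟨v, hS hij hv, rfl⟩
  rw [h0] at this
  exact this

/-- the local part of the jump lemma -/
theorem jump_local (h : Sys X V O g) (hS : Monotone S) (hM : ∀ i, Mo O g (S i))
    (hr1 : ∀ i x, r i x ∈ closure (Xp (S i)))
    (hr2 : ∀ i x, ∀ f ∈ g '' Vp (S i), f (r i x) = f x)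
    (hr3 : ∀ i, ∀ x ∈ closure (Xp (S i)), r i x = x)
    (I : Set ι) (hI : I.Nonempty) (x x' : X) (hxx : ∀ j ∈ I, r j x' = r j x)
    (hcv : ∀ G : Set X, IsOpen G → x' ∈ G → ∃ i0 ∈ I, ∀ j ∈ I, i0 ≤ j → r j x ∈ G)
    {n : ℕ} (z : Fin n → V) (m : ℕ) : ∀ R : Finset V, n + 1 ≤ R.card + m →
      ∃ W ∈ 𝓝 z, ∃ i0 ∈ I, ∀ p : {p : ι × ι // p.1 ⋖ p.2}, p.1.2 ∈ I → i0 ≤ p.1.1 →
        ∀ l ∈ W, (∀ v ∈ R, ∃ k, l k = v) → ¬ Cov S r O x p l := by
  classical
  induction m with
  | zero =>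
    intro R hR
    obtain ⟨i0, hi0⟩ := hI
    refine ⟨Set.univ, Filter.univ_mem, i0, hi0, ?_⟩
    intro p _ _ l _ hl _
    have h1 : R ⊆ Finset.univ.image l := by
      intro v hv
      obtain ⟨k, hk⟩ := hl v hv
      exact Finset.mem_image.2 ⟨k, Finset.mem_univ k, hk⟩
    have h2 := Finset.card_le_card h1
    have h3 : (Finset.univ.image l).card ≤ n := by
      refine Finset.card_image_le.trans ?_
      simp
    omega
  | succ m ih =>
    intro R hR
    -- a point near `x'` avoiding the sets of `R`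
    obtain ⟨i1, hi1, hG⟩ := hcv {y | ∀ v ∈ R, (x', y) ∉ closure (O v)} (by
      have : {y | ∀ v ∈ R, (x', y) ∉ closure (O v)} = ⋂ v ∈ R, {y | (x', y) ∉ closure (O v)} := by
        ext y; simp
      rw [this]
      apply isOpen_biInter_finset
      intro v _
      exact (isClosed_closure.isOpen_compl).preimage (by fun_prop : Continuous fun y : X => (x', y)))
      (fun v _ => h.closure_ne x' v)
    have hh := hG i1 hi1 le_rfl
    set y0 := r i1 x with hy0
    have hy0c : y0 ∈ closure (Xp (S i1)) := hr1 i1 x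
    have hy0R : ∀ v ∈ R, (x', y0) ∉ O v := fun v hv h' => hh v hv (subset_closure h')
    -- covering at `y0`
    have hcov : ∀ p : {p : ι × ι // p.1 ⋖ p.2}, p.1.2 ∈ I → i1 ≤ p.1.1 → ∀ l : Fin n → V,
        Cov S r O x p l → ∃ k, (x', y0) ∈ O (l k) := by
      intro p hp hp1 l hl
      obtain ⟨k, hk⟩ := hl.2 y0 (xp_mono (hS hp1) hy0c)
      refine ⟨k, ?_⟩
      apply (hM p.1.2).det h (hr1 p.1.2) (hr2 p.1.2) (hl.1 k)
      rw [hxx _ hp, hr3 p.1.2 y0 (xp_mono (hS (hp1.trans p.2.le)) hy0c)]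
      exact hk
    by_cases hne : x' = y0
    · refine ⟨Set.univ, Filter.univ_mem, i1, hi1, ?_⟩
      intro p hp hp1 l _ _ hc
      obtain ⟨k, hk⟩ := hcov p hp hp1 l hc
      rw [← hne] at hk
      exact h.closure_ne x' _ (subset_closure hk)
    · choose U hU hUf using fun k => h.fin x' y0 hne (z k)
      let T : Finset V := Finset.univ.biUnion fun k => (hUf k).toFinset
      have hT : ∀ k w, w ∈ U k → (x', y0) ∈ O w → w ∈ T := by
        intro k w h1 h2
        refine Finset.mem_biUnion.2 ⟨k, Finset.mem_univ k, ?_⟩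
        rw [Set.Finite.mem_toFinset]
        exact ⟨h1, h2⟩
      have hstep : ∀ w : V, ∃ W ∈ 𝓝 z, ∃ i0 : I, w ∉ R → ∀ p : {p : ι × ι // p.1 ⋖ p.2},
          p.1.2 ∈ I → i0.1 ≤ p.1.1 → ∀ l ∈ W, (∀ v ∈ insert w R, ∃ k, l k = v) →
          ¬ Cov S r O x p l := by
        intro w
        by_cases hw : w ∈ R
        · exact ⟨Set.univ, Filter.univ_mem, ⟨i1, hi1⟩, fun h' => absurd hw h'⟩
        · obtain ⟨W, hW, i0, hi0, h1⟩ := ih (insert w R) (by
            rw [Finset.card_insert_of_notMem hw]; omega)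
          exact ⟨W, hW, ⟨i0, hi0⟩, fun _ => h1⟩
      choose W hW i0 hstep using hstep
      have hIne : Nonempty I := ⟨⟨i1, hi1⟩⟩
      obtain ⟨M, hMle⟩ := Finset.exists_le (insert (⟨i1, hi1⟩ : I) (T.image i0))
      refine ⟨(⋂ k, {l : Fin n → V | l k ∈ U k}) ∩ ⋂ w ∈ T, W w, ?_, M.1, M.2, ?_⟩
      · apply Filter.inter_mem
        · rw [Filter.iInter_mem]
          intro k
          exact (continuous_apply k).continuousAt.preimage_mem_nhds (hU k)
        · rw [Filter.biInter_finset_mem]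
          intro w _
          exact hW w
      · intro p hp hp1 l hl hlR hc
        have hi1M : i1 ≤ M.1 := hMle _ (Finset.mem_insert_self _ _)
        obtain ⟨k, hk⟩ := hcov p hp (hi1M.trans hp1) l hc
        have hlk : l k ∈ U k := mem_iInter.1 hl.1 k
        have hkT : l k ∈ T := hT k _ hlk hk
        have hkR : l k ∉ R := fun h' => hy0R _ h' hk
        have h3 : (i0 (l k)).1 ≤ M.1 :=
          hMle _ (Finset.mem_insert_of_mem (Finset.mem_image.2 ⟨_, hkT, rfl⟩))
        have h4 : l ∈ W (l k) := by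
          have := hl.2
          simp only [mem_iInter] at this
          exact this _ hkT
        refine hstep (l k) hkR p hp (h3.trans hp1) l h4 ?_ hc
        intro v hv
        rcases Finset.mem_insert.1 hv with rfl | hv
        · exact ⟨k, rfl⟩
        · exact hlR v hv

/-- the jump lemma -/
theorem jump [CompactSpace X] [WellFoundedLT ι] [Nonempty ι]
    (h : Sys X V O g) (hS : Monotone S) (hM : ∀ i, Mo O g (S i))
    (hlim : ∀ i, Order.IsSuccLimit i → ∀ t ∈ S i, ∃ j < i, t ∈ S j)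
    (hr1 : ∀ i x, r i x ∈ closure (Xp (S i)))
    (hr2 : ∀ i x, ∀ f ∈ g '' Vp (S i), f (r i x) = f x)
    (hr3 : ∀ i, ∀ x ∈ closure (Xp (S i)), r i x = x)
    (K0 : ∀ k i x, k ≤ i → r k (r i x) = r k x)
    (hsep : ∀ x y, (∀ i, r i x = r i y) → x = y)
    (x : X) {n : ℕ} (z : Fin n → V) :
    ∃ W ∈ 𝓝 z, {p : {p : ι × ι // p.1 ⋖ p.2} | ∃ l ∈ W, Cov S r O x p l}.Finite := by
  classical
  have hle : ∀ i : ι, ∃ W ∈ 𝓝 z,
      {p : {p : ι × ι // p.1 ⋖ p.2} | p.1.2 ≤ i ∧ ∃ l ∈ W, Cov S r O x p l}.Finite := by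
    intro i
    induction i using WellFoundedLT.induction with
    | ind i ih =>
      rcases order_tri i with hm | ⟨j, hj⟩ | hl
      · refine ⟨Set.univ, Filter.univ_mem, ?_⟩
        apply Set.Finite.subset Set.finite_empty
        rintro p ⟨hp, -⟩
        have h1 : p.1.1 < i := p.2.lt.trans_le hp
        exact absurd (hm h1.le) (not_le.2 h1)
      · obtain ⟨W, hW, hf⟩ := ih j hj.lt
        refine ⟨W, hW, ?_⟩
        apply (hf.union (Set.finite_singleton (⟨(j, i), hj⟩ : {p : ι × ι // p.1 ⋖ p.2}))).subset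
        rintro p ⟨hp, hl⟩
        by_cases hpj : p.1.2 ≤ j
        · exact Or.inl ⟨hpj, hl⟩
        · right
          push Not at hpj
          have e1 : p.1.2 = i := by
            apply le_antisymm hp
            by_contra hcon'
            push Not at hcon'
            exact hj.2 hpj hcon'
          have e2 : p.1.1 = j := by
            have := p.2
            rw [e1] at this
            exact this.unique_left hj
          exact Subtype.ext (Prod.ext e2 e1)
      · have hI : (Set.Iio i).Nonempty := by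
          have := hl.1
          rw [isMin_iff_forall_not_lt] at this
          push Not at this
          exact this
        obtain ⟨W1, hW1, i0, hi0, h1⟩ := jump_local S r h hS hM hr1 hr2 hr3 (Set.Iio i) hI x (r i x)
          (fun j hj => K0 j i x (le_of_lt hj))
          (fun G hG hxG => conv (g := g) S r hS hr1 hr2 (Set.Iio i) hI (closure (Xp (S i)))
            isClosed_closure (fun j hj => xp_mono (hS (le_of_lt hj))) x (r i x) (by
              intro y hy hyv
              apply (hM i).sep h _ hy _ (hr1 i x)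
              rintro _ ⟨v, hv, rfl⟩
              obtain ⟨j, hj, hvj⟩ := hlim i hl _ hv
              rw [hr2 i x _ ⟨v, hv, rfl⟩]
              exact hyv j hj v hvj) G hG hxG) z (n+1) ∅ (by simp)
        obtain ⟨W2, hW2, h2⟩ := ih i0 hi0
        refine ⟨W1 ∩ W2, Filter.inter_mem hW1 hW2, h2.subset ?_⟩
        rintro p ⟨hp, l, hlW, hc⟩
        have hpi : p.1.2 < i := by
          rcases hp.lt_or_eq with h' | h'
          · exact h'
          · exfalso
            have h3 := p.2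
            rw [h'] at h3
            exact hl.2 _ h3
        refine ⟨?_, l, hlW.2, hc⟩
        by_contra hcon
        have h4 : i0 ≤ p.1.1 := by
          by_contra h5
          push Not at h5
          exact hcon (p.2.ge_of_gt h5)
        exact h1 p hpi h4 l hlW.1 (by simp) hc
  by_cases hmax : ∃ m : ι, ∀ i, i ≤ m
  · obtain ⟨m, hm⟩ := hmax
    obtain ⟨W, hW, hf⟩ := hle m
    exact ⟨W, hW, hf.subset fun p hp => ⟨hm _, hp⟩⟩
  · push Not at hmax
    obtain ⟨W1, hW1, i0, -, h1⟩ := jump_local S r h hS hM hr1 hr2 hr3 Set.univ univ_nonempty x x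
      (fun j _ => rfl)
      (fun G hG hxG => conv (g := g) S r hS hr1 hr2 Set.univ univ_nonempty Set.univ
        isClosed_univ (fun j _ => subset_univ _) x x (by
          intro y _ hyv
          apply hsep
          intro i
          apply (hM i).sep h _ (hr1 i y) _ (hr1 i x)
          rintro _ ⟨v, hv, rfl⟩
          rw [hr2 i x _ ⟨v, hv, rfl⟩, hr2 i y _ ⟨v, hv, rfl⟩]
          exact hyv i (mem_univ i) v hv) G hG hxG) z (n+1) ∅ (by simp)
    obtain ⟨W2, hW2, h2⟩ := hle i0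
    refine ⟨W1 ∩ W2, Filter.inter_mem hW1 hW2, h2.subset ?_⟩
    rintro p ⟨l, hlW, hc⟩
    refine ⟨?_, l, hlW.2, hc⟩
    by_contra hcon
    have h4 : i0 ≤ p.1.1 := by
      by_contra h5
      push Not at h5
      exact hcon (p.2.ge_of_gt h5)
    exact h1 p (mem_univ _) h4 l hlW.1 (by simp) hc

end Chain

end Pool.Agent.H180.GK
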