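import Pool.Agent.H180.GK.Basic

/-!
# Statements of the lemma jobs of project GK
-/

open Set Topology Cardinal Pool.Agent.Helper535

namespace Pool.Agent.H180.GK

universe u v w

/-- JOB GK-Hered.  A compact space `X` with a point separating `E`-family (`GS E X`, file
`Pool/Agent/Helper535/N.lean`, `E` second countable) is hereditarily weakly sigma-metacompact.

Proof.  Let `h : T → C(X, ℝ)`, `e : T → E` be the family (`EFam`), `b n` a countable base of `E`
(sequence of open sets, e.g. from `TopologicalSpace.exists_countable_basis`). Let `S ⊆ X` and let `U` be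
an open cover of the subspace `S`; choose for `s ∈ U` an open `s' ⊆ X` with `s = s' ∩ S`.
Index set: quadruples `ν = (N, a, η)` with `N : Finset ℕ`, `a : List (T × ℚ)`, `η : ℚ`, `η > 0`.  Put
`net ν = {y | (∀ m ∈ N, ∀ t, e t ∈ b m → η < |h t y| → t ∈ a.map fst) ∧ ∀ c ∈ a, |h c.1 y - c.2| < η}`,
`op ν = {y | ∀ c ∈ a, η < |h c.1 y| ∧ |h c.1 y - c.2| < η}`  (open in `X`).
(1) For every `x ∈ X` and open `W ∋ x` there is `ν` with `x ∈ net ν ∩ op ν` and `net ν ⊆ W`: the `h t`
separate points and `X` is compact, so there are a finite `F ⊆ T` and a rational `ε > 0` such that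
`(∀ t ∈ F, |h t y - h t x| < ε) → y ∈ W`; put `η = ε / 3` (so `2 η < ε`); for every `t ∈ F` choose by
`EFam.fin` (at `x`, `z = e t`, level `η`) a number `m t` with `e t ∈ b (m t)` and
`{s | e s ∈ b (m t) ∧ η ≤ |h s x|}` finite; `N = {m t | t ∈ F}`, `a` = list of all `(s, c)` with
`e s ∈ b m` for some `m ∈ N`, `η < |h s x|`, `c` a rational with `|h s x - c| < η`. If `y ∈ net ν` and
`t ∈ F`, either `t` occurs in `a` and `|h t y - h t x| < 2 η`, or not, and then both values have absolute
value `≤ η`.
(2) For every good index `ν` (one with `net ν ⊆ s'` for some `s ∈ U`) choose such an `s = s(ν)` and put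
`G ν = op ν ∩ s'(ν)`. The family `A = {G ν ∩ S | ν good}` is an open refinement of `U` covering `S`.
(3) It is weakly sigma-point-finite (use `WSPF_iff`): countably many classes `θ = (N, k, η)` with
`k : List (ℕ × ℚ)`: `ν ∈ θ` iff `N`, `η` agree and `List.Forall₂ (fun c d => e c.1 ∈ b d.1 ∧ c.2 = d.2) a k`.
Given `y` and `ν = (N, a, η)` choose for each entry `c` of `a` a number `m` with `e c.1 ∈ b m` and
`{s | e s ∈ b m ∧ η ≤ |h s y|}` finite; the class `θ` given by these numbers contains `ν`, and only
finitely many `ν' ∈ θ` have `y ∈ op ν'` (finite product of finite sets). -/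
def S_Hered : Prop := ∀ (X : Type u) [TopologicalSpace X] [CompactSpace X] [T2Space X] (E : Type v)
    [TopologicalSpace E] [SecondCountableTopology E], GS E X → ∀ S : Set X, WSMetacompact S

/-- JOB GK-Prod.  The square. Take the family `h t ∘ fst` (code `inl (e t)`), `h t ∘ snd`
(code `inr (e t)`). -/
def S_Prod : Prop := ∀ (X : Type u) [TopologicalSpace X] (E : Type v) [TopologicalSpace E],
    GS E X → GS (E ⊕ E) (X × X)

/-- JOB GK-Init.  The system of a weakly sigma-metacompact complement of the diagonal.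
Proof. Open cover of `Y = {p : X × X // p.1 ≠ p.2}` by all `{p | p.1.1 ∈ A ∧ p.1.2 ∈ B}`, `A B` open with
`Disjoint (closure A) (closure B)` (a cover since `X` is `T2.5`/normal). Take a weakly
sigma-point-finite open refinement `𝒜 = ⋃ n, B n` (`WSPF_iff`). `V` = the subtype of `𝒜`,
topology generated by the countably many sets `{v | v.1 ∈ B n}`; `O v` = image of `v.1` in `X × X`
(open since `Y` is open in `X × X`); `g v` = Urysohn function, `0` on `closure A`, `1` on `closure B`
for a rectangle `A × B` containing `v.1` (`exists_continuous_zero_one_of_isClosed`, `X` is normal). -/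
def S_Init : Prop := ∀ (X : Type u) [TopologicalSpace X] [CompactSpace X] [T2Space X],
    WSMetacompact {p : X × X // p.1 ≠ p.2} → ∃ (V : Type u) (_ : TopologicalSpace V)
      (_ : SecondCountableTopology V) (O : V → Set (X × X)) (g : V → C(X, ℝ)), Sys X V O g

/-- JOB GK-Union.  Unions of chains of models (as `Mod.sUnion` in `Pool/Agent/Helper535/S.lean`, with
`Dn_iUnion`; for `dn2` and `v ∈ Vp (⋃₀ 𝒮)` take the members of `𝒮` above one that contains `v`). -/
def S_Union : Prop := ∀ (X : Type u) [TopologicalSpace X] [CompactSpace X] (V : Type u)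
    (O : V → Set (X × X)) (g : V → C(X, ℝ)) (𝒮 : Set (Set (X ⊕ V))), 𝒮.Nonempty →
    IsChain (· ⊆ ·) 𝒮 → (∀ S ∈ 𝒮, Mo O g S) → Mo O g (⋃₀ 𝒮)

/-- JOB GK-Close.  Every set is contained in a model of the same size (as `Mod.close` in
`Pool/Agent/Helper535/S.lean`).  Proof. For `x ≠ y` the set `{v | (x, y) ∈ O v}` is countable
(`Sys.fin` and second countability: `TopologicalSpace.countable_cover_nhds`), for `x = y` it is empty
(`zero`, `one`). For a set `S` put `nxt S = S ∪ inr '' {v | ∃ p q ∈ Xp S, (p, q) ∈ O v} ∪ inl '' C S ∪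
inl '' (fst and snd images of D v S, v ∈ Vp S)`, where `C S` and `D v S ⊆ (O v)ᶜ` come from `lemA`
(`Pool/Agent/Helper535/A.lean`) for `univ`, `g '' Vp S` in `X` and `(O v)ᶜ`, `sq g (Vp S)` in `X × X`
(`closure ((O v)ᶜ) = (O v)ᶜ`). All have cardinality at most `max #S ℵ₀`. Iterate `ω` times and use
`Dn_iUnion`. -/
def S_Close : Prop := ∀ (X : Type u) [TopologicalSpace X] [CompactSpace X] [T2Space X] (V : Type u)
    [TopologicalSpace V] [SecondCountableTopology V]
    (O : V → Set (X × X)) (g : V → C(X, ℝ)), Sys X V O g → ∀ S : Set (X ⊕ V),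
    ∃ S', S ⊆ S' ∧ Mo O g S' ∧ #S' ≤ max #S ℵ₀

end Pool.Agent.H180.GK
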